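import Pool.Agent.Y298.LC.Stm
import Pool.Agent.H493R3.Weyl

set_option autoImplicit false

/-!
# Project LC: visits near zero of the orbit of almost every angle
-/

open MeasureTheory Filter Topology Set

namespace Pool.Agent.Y686.LC2

open Pool.Agent.Y298.LC (S_ANG1 S_ANG2 S_ANG)

open Pool.Agent.H493R3 (Circ avg weyl closed_upper volume_arc integral_fourier_eq_zero)

/-- the exponential sums -/
noncomputable def Sm (d : ℕ) (n : ℤ) (M : ℕ) (x : Circ) : ℂ :=
  ∑ m ∈ Finset.range M, (fourier (n * (d : ℤ) ^ m) x : ℂ)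

lemma Sm_continuous (d : ℕ) (n : ℤ) (M : ℕ) : Continuous (Sm d n M) := by
  unfold Sm
  fun_prop

lemma integral_normSq (d : ℕ) (hd : 2 ≤ d) (n : ℤ) (hn : n ≠ 0) (M : ℕ) :
    ∫ x : Circ, ‖Sm d n M x‖ ^ 2 = M := by
  have h1 : ∀ x : Circ, (((‖Sm d n M x‖ ^ 2 : ℝ)) : ℂ) = ∑ m ∈ Finset.range M,
      ∑ m' ∈ Finset.range M, (fourier (n * (d : ℤ) ^ m - n * (d : ℤ) ^ m') x : ℂ) := by
    intro x
    push_cast
    rw [← Complex.mul_conj']
    unfold Sm
    rw [map_sum, Finset.sum_mul_sum]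
    refine Finset.sum_congr rfl fun m _ => Finset.sum_congr rfl fun m' _ => ?_
    rw [sub_eq_add_neg, fourier_add, fourier_neg]
  have hint : ∀ k : ℤ, Integrable (fun x : Circ => (fourier k x : ℂ)) := fun k =>
    (fourier k).continuous.integrable_of_hasCompactSupport (HasCompactSupport.of_compactSpace _)
  have h2 : (((∫ x : Circ, ‖Sm d n M x‖ ^ 2 : ℝ)) : ℂ) = M := by
    have h0 : (((∫ x : Circ, ‖Sm d n M x‖ ^ 2 : ℝ)) : ℂ) =
        ∫ x : Circ, (((‖Sm d n M x‖ ^ 2 : ℝ)) : ℂ) := integral_ofReal.symm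
    rw [h0]
    simp_rw [h1]
    rw [integral_finset_sum _ fun m _ => integrable_finset_sum _ fun m' _ => hint _]
    have h3 : ∀ m ∈ Finset.range M, (∫ x : Circ, ∑ m' ∈ Finset.range M,
        (fourier (n * (d : ℤ) ^ m - n * (d : ℤ) ^ m') x : ℂ)) = 1 := by
      intro m hm
      rw [integral_finset_sum _ fun m' _ => hint _, Finset.sum_eq_single m]
      · rw [sub_self]
        simp [fourier_zero, Measure.real]
      · intro m' _ hne
        apply integral_fourier_eq_zero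
        intro h0
        apply hne
        have h4 : (d : ℤ) ^ m = (d : ℤ) ^ m' := by
          have := sub_eq_zero.1 h0
          exact mul_left_cancel₀ hn this
        have h5 : d ^ m = d ^ m' := by exact_mod_cast h4
        exact (Nat.pow_right_injective hd h5).symm
      · intro h
        exact absurd hm h
    rw [Finset.sum_congr rfl h3]
    simp
  exact_mod_cast h2

/-- functions with summable integrals tend to zero almost everywhere -/
lemma ae_tendsto_zero (f : ℕ → Circ → ℝ) (hf : ∀ k, Continuous (f k)) (hf0 : ∀ k x, 0 ≤ f k x)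
    (c : ℕ → ℝ) (hc : Summable c) (h : ∀ k, ∫ x : Circ, f k x ≤ c k) :
    ∀ᵐ x : Circ, Tendsto (fun k => f k x) atTop (𝓝 0) := by
  have hint : ∀ k, Integrable (f k) := fun k =>
    (hf k).integrable_of_hasCompactSupport (HasCompactSupport.of_compactSpace _)
  have h1 : ∫⁻ x : Circ, ∑' k, ENNReal.ofReal (f k x) ≠ ⊤ := by
    rw [lintegral_tsum fun k => (hf k).measurable.ennreal_ofReal.aemeasurable]
    have h2 : ∀ k, ∫⁻ x : Circ, ENNReal.ofReal (f k x) = ENNReal.ofReal (∫ x : Circ, f k x) :=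
      fun k => (ofReal_integral_eq_lintegral_ofReal (hint k) (ae_of_all _ (hf0 k))).symm
    have hc0 : ∀ k, 0 ≤ c k := fun k => (integral_nonneg (hf0 k)).trans (h k)
    refine ne_top_of_le_ne_top (b := ∑' k, ENNReal.ofReal (c k)) ?_ ?_
    · rw [← ENNReal.ofReal_tsum_of_nonneg hc0 hc]
      exact ENNReal.ofReal_ne_top
    · refine ENNReal.tsum_le_tsum fun k => ?_
      rw [h2]
      exact ENNReal.ofReal_le_ofReal (h k)
  have h3 := ae_lt_top (Measurable.ennreal_tsum fun k => (hf k).measurable.ennreal_ofReal) h1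
  filter_upwards [h3] with x hx
  have h4 := ENNReal.tendsto_atTop_zero_of_tsum_ne_top hx.ne
  have h5 := (ENNReal.tendsto_toReal ENNReal.zero_ne_top).comp h4
  refine h5.congr fun k => ?_
  simp [ENNReal.toReal_ofReal (hf0 k x)]

lemma ae_weyl_one (d : ℕ) (hd : 2 ≤ d) (n : ℤ) (hn : n ≠ 0) :
    ∀ᵐ x : Circ, Tendsto (fun M : ℕ => Sm d n M x / M) atTop (𝓝 0) := by
  have h1 := ae_tendsto_zero (fun k x => ‖Sm d n ((k + 1) ^ 2) x‖ ^ 2 / ((k : ℝ) + 1) ^ 4)
    (fun k => ((Sm_continuous d n _).norm.pow 2).div_const _) (fun k x => by positivity)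
    (fun k => 1 / ((k : ℝ) + 1) ^ 2) (by
      have := (summable_nat_add_iff 1).2 ((Real.summable_one_div_nat_pow (p := 2)).2 (by norm_num))
      simpa using this) (by
      intro k
      rw [integral_div, integral_normSq d hd n hn]
      push_cast
      apply le_of_eq
      field_simp)
  filter_upwards [h1] with x hx
  have h2 : Tendsto (fun k : ℕ => ‖Sm d n ((k + 1) ^ 2) x‖ / ((k : ℝ) + 1) ^ 2) atTop (𝓝 0) := by
    have h3 := hx.sqrt
    rw [Real.sqrt_zero] at h3
    refine h3.congr fun k => ?_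
    have : ‖Sm d n ((k + 1) ^ 2) x‖ ^ 2 / ((k : ℝ) + 1) ^ 4 =
        (‖Sm d n ((k + 1) ^ 2) x‖ / ((k : ℝ) + 1) ^ 2) ^ 2 := by
      rw [div_pow]
      ring_nf
    rw [this, Real.sqrt_sq (by positivity)]
  rw [Metric.tendsto_atTop] at h2 ⊢
  intro ε hε
  obtain ⟨K, hK⟩ := h2 (ε / 2) (half_pos hε)
  obtain ⟨K2, hK2⟩ := exists_nat_gt (4 / ε)
  refine ⟨(K + K2 + 2) ^ 2, fun M hM => ?_⟩
  set k := Nat.sqrt M with hk
  have hk1 : K + K2 + 2 ≤ k := by
    rw [hk, Nat.le_sqrt']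
    exact hM
  have hkM : k ^ 2 ≤ M := Nat.sqrt_le' M
  have hMk : M < (k + 1) ^ 2 := Nat.lt_succ_sqrt' M
  clear_value k
  obtain ⟨j, rfl⟩ : ∃ j, k = j + 1 := ⟨k - 1, by omega⟩
  have h4 := hK j (by omega)
  rw [Real.dist_eq, sub_zero, abs_of_nonneg (by positivity)] at h4
  have h5 : ‖Sm d n M x‖ ≤ ‖Sm d n ((j + 1) ^ 2) x‖ + 2 * ((j : ℝ) + 1) := by
    have h6 : Sm d n M x = Sm d n ((j + 1) ^ 2) x +
        ∑ m ∈ Finset.Ico ((j + 1) ^ 2) M, (fourier (n * (d : ℤ) ^ m) x : ℂ) := by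
      unfold Sm
      rw [Finset.sum_range_add_sum_Ico _ hkM]
    rw [h6]
    refine (norm_add_le _ _).trans (add_le_add le_rfl ?_)
    refine (norm_sum_le _ _).trans ?_
    have h7 : ∀ m ∈ Finset.Ico ((j + 1) ^ 2) M, ‖(fourier (n * (d : ℤ) ^ m) x : ℂ)‖ ≤ 1 := by
      intro m _
      rw [fourier_apply]
      exact (Circle.norm_coe _).le
    refine (Finset.sum_le_sum h7).trans ?_
    rw [Finset.sum_const, Nat.card_Ico, nsmul_eq_mul, mul_one]
    have h8 : M - (j + 1) ^ 2 ≤ 2 * (j + 1) := by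
      have : (j + 1 + 1) ^ 2 = (j + 1) ^ 2 + 2 * (j + 1) + 1 := by ring
      omega
    exact_mod_cast h8
  have hM0 : (0 : ℝ) < M := by
    have : 0 < M := lt_of_lt_of_le (by positivity) hkM
    exact_mod_cast this
  have hj0 : (0 : ℝ) < (j : ℝ) + 1 := by positivity
  have hjM : ((j : ℝ) + 1) ^ 2 ≤ M := by exact_mod_cast hkM
  rw [dist_zero_right, norm_div, Complex.norm_natCast, div_lt_iff₀ hM0]
  have h9 : ‖Sm d n ((j + 1) ^ 2) x‖ < ε / 2 * ((j : ℝ) + 1) ^ 2 := by
    rwa [div_lt_iff₀ (by positivity)] at h4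
  have h10 : 2 * ((j : ℝ) + 1) ≤ ε / 2 * ((j : ℝ) + 1) ^ 2 := by
    have h11 : (K2 : ℝ) ≤ (j : ℝ) + 1 := by
      have : K2 ≤ j + 1 := by omega
      exact_mod_cast this
    have h12 : 4 ≤ ε * ((j : ℝ) + 1) := by
      have := (div_lt_iff₀ hε).1 hK2
      nlinarith
    nlinarith
  calc ‖Sm d n M x‖ ≤ ‖Sm d n ((j + 1) ^ 2) x‖ + 2 * ((j : ℝ) + 1) := h5
    _ < ε / 2 * ((j : ℝ) + 1) ^ 2 + ε / 2 * ((j : ℝ) + 1) ^ 2 := by linarith
    _ = ε * ((j : ℝ) + 1) ^ 2 := by ring
    _ ≤ ε * M := by gcongr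

/-- Weyl's criterion holds at almost every point of the circle -/
lemma ae_weyl (d : ℕ) (hd : 2 ≤ d) : ∀ᵐ x : Circ, ∀ n : ℤ, n ≠ 0 →
    Tendsto (fun M => avg (fun m => ((d : ℤ) ^ m) • x) (fun y => (fourier n y : ℂ)) M)
      atTop (𝓝 0) := by
  rw [ae_all_iff]
  intro n
  by_cases hn : n = 0
  · exact ae_of_all _ fun x h => absurd hn h
  · filter_upwards [ae_weyl_one d hd n hn] with x hx _
    refine hx.congr fun M => ?_
    unfold Sm avg
    congr 1
    refine Finset.sum_congr rfl fun m _ => ?_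
    show (fourier (n * (d : ℤ) ^ m) x : ℂ) = fourier n (((d : ℤ) ^ m) • x)
    rw [fourier_apply, fourier_apply, smul_smul]

/-- a property of almost all points of the circle holds for almost all real numbers -/
lemma ae_real {P : Circ → Prop} (h : ∀ᵐ x : Circ, P x) : ∀ᵐ θ : ℝ, P (θ : Circ) := by
  have h1 : ∀ k : ℤ, ∀ᵐ θ : ℝ ∂(volume.restrict (Ioc (k : ℝ) (k + 1))), P (θ : Circ) := by
    intro k
    have hmp := AddCircle.measurePreserving_mk (1 : ℝ) (k : ℝ)
    exact hmp.quasiMeasurePreserving.ae h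
  have h2 : (⋃ k : ℤ, Ioc (k : ℝ) (k + 1)) = univ := iUnion_Ioc_intCast ℝ
  have h3 := (ae_restrict_iUnion_iff (fun k : ℤ => Ioc (k : ℝ) (k + 1))
    (fun θ : ℝ => P (θ : Circ))).2 h1
  rwa [h2, Measure.restrict_univ] at h3

open Classical in
/-- the visits of a sequence whose Weyl sums tend to zero -/
lemma visits (x : ℕ → ℝ) (hx : ∀ n : ℤ, n ≠ 0 → Tendsto (fun M => avg (fun m => ((x m : ℝ) : Circ))
      (fun y => (fourier n y : ℂ)) M) atTop (𝓝 0)) (κ δ : ℝ) (hκ : 0 < κ) (hκ2 : κ ≤ 1 / 4)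
    (hδ : 0 < δ) : ∀ᶠ M : ℕ in atTop,
    (2 * κ - δ) * M ≤ (((Finset.range M).filter (fun m => ∃ j : ℤ, |x m - j| < κ)).card : ℝ) ∧
    (((Finset.range M).filter (fun m => ∃ j : ℤ, |x m - j| < κ)).card : ℝ) ≤ (2 * κ + δ) * M := by
  have hcl : ∀ a c : ℝ, IsClosed ((fun t : ℝ => (t : Circ)) '' Icc a c) := fun a c =>
    (isCompact_Icc.image (AddCircle.continuous_mk' (1 : ℝ))).isClosed
  have h1 := closed_upper (fun m => ((x m : ℝ) : Circ)) hx (hcl κ (1 - κ)) (1 - 2 * κ)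
    (by linarith) ((volume_arc κ (1 - κ) (by linarith)).trans
      (ENNReal.ofReal_le_ofReal (by linarith))) δ hδ
  have h2 := closed_upper (fun m => ((x m : ℝ) : Circ)) hx (hcl (-κ) κ) (2 * κ)
    (by linarith) ((volume_arc (-κ) κ (by linarith)).trans
      (ENNReal.ofReal_le_ofReal (by linarith))) δ hδ
  have hper : ∀ (t : ℝ) (j : ℤ), ((t - j : ℝ) : Circ) = (t : Circ) := by
    intro t j
    rw [AddCircle.coe_sub, sub_eq_self, AddCircle.coe_eq_zero_iff]
    exact ⟨j, by simp⟩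
  filter_upwards [h1, h2, eventually_gt_atTop 0] with M h1 h2 hM
  have hM0 : (0 : ℝ) < M := by exact_mod_cast hM
  rw [div_lt_iff₀ hM0] at h1 h2
  constructor
  · have h3 : (Finset.range M).card ≤
        ((Finset.range M).filter (fun m => ∃ j : ℤ, |x m - j| < κ)).card +
        ((Finset.range M).filter (fun m => ((x m : ℝ) : Circ) ∈
          (fun t : ℝ => (t : Circ)) '' Icc κ (1 - κ))).card := by
      rw [← Finset.card_filter_add_card_filter_not (s := Finset.range M)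
        (fun m => ∃ j : ℤ, |x m - j| < κ)]
      refine Nat.add_le_add_left (Finset.card_le_card ?_) _
      intro m hm
      rw [Finset.mem_filter] at hm ⊢
      refine ⟨hm.1, ?_⟩
      have h4 := hm.2
      push Not at h4
      refine ⟨Int.fract (x m), ⟨?_, ?_⟩, ?_⟩
      · have := h4 ⌊x m⌋
        have h5 : x m - ⌊x m⌋ = Int.fract (x m) := rfl
        rwa [h5, abs_of_nonneg (Int.fract_nonneg _)] at this
      · have := h4 (⌊x m⌋ + 1)
        have h5 : x m - ((⌊x m⌋ + 1 : ℤ) : ℝ) = Int.fract (x m) - 1 := by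
          push_cast
          rw [← Int.self_sub_floor]
          ring
        rw [h5, abs_of_nonpos (by linarith [Int.fract_lt_one (x m)])] at this
        linarith
      · exact hper (x m) ⌊x m⌋
    rw [Finset.card_range] at h3
    have h4 : (M : ℝ) ≤ (((Finset.range M).filter (fun m => ∃ j : ℤ, |x m - j| < κ)).card : ℝ) +
        (((Finset.range M).filter (fun m => ((x m : ℝ) : Circ) ∈
          (fun t : ℝ => (t : Circ)) '' Icc κ (1 - κ))).card : ℝ) := by exact_mod_cast h3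
    linarith
  · have h3 : ((Finset.range M).filter (fun m => ∃ j : ℤ, |x m - j| < κ)).card ≤
        ((Finset.range M).filter (fun m => ((x m : ℝ) : Circ) ∈
          (fun t : ℝ => (t : Circ)) '' Icc (-κ) κ)).card := by
      apply Finset.card_le_card
      intro m hm
      rw [Finset.mem_filter] at hm ⊢
      obtain ⟨hm, j, hj⟩ := hm
      refine ⟨hm, x m - j, ?_, hper (x m) j⟩
      rw [abs_lt] at hj
      exact ⟨hj.1.le, hj.2.le⟩
    have h4 : (((Finset.range M).filter (fun m => ∃ j : ℤ, |x m - j| < κ)).card : ℝ) ≤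
        (((Finset.range M).filter (fun m => ((x m : ℝ) : Circ) ∈
          (fun t : ℝ => (t : Circ)) '' Icc (-κ) κ)).card : ℝ) := by exact_mod_cast h3
    linarith

theorem ang2 : S_ANG2 := by
  classical
  intro d hd
  filter_upwards [ae_real (ae_weyl d hd)] with θ hθ κ ε hκ hκ2 hε hε1
  have hx : ∀ n : ℤ, n ≠ 0 → Tendsto (fun M => avg (fun m => (((d : ℝ) ^ m * θ : ℝ) : Circ))
      (fun y => (fourier n y : ℂ)) M) atTop (𝓝 0) := by
    intro n hn
    refine (hθ n hn).congr fun M => ?_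
    unfold avg
    congr 1
    refine Finset.sum_congr rfl fun m _ => ?_
    show (fourier n (((d : ℤ) ^ m) • (θ : Circ)) : ℂ) = fourier n (((d : ℝ) ^ m * θ : ℝ) : Circ)
    rw [← AddCircle.coe_zsmul, zsmul_eq_mul]
    push_cast
    rfl
  have hv := visits (fun m => (d : ℝ) ^ m * θ) hx κ (κ * ε / 16) hκ hκ2 (by positivity)
  obtain ⟨M0, hM0⟩ := eventually_atTop.1 hv
  obtain ⟨n0, hn0⟩ := exists_nat_gt (16 / (κ * ε))
  filter_upwards [eventually_ge_atTop (M0 + n0 + 1)] with n hn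
  have hκε : 0 < κ * ε := by positivity
  have hnr : 16 < κ * ε * n := by
    have h1 : (n0 : ℝ) ≤ n := by
      have : n0 ≤ n := by omega
      exact_mod_cast this
    have := (div_lt_iff₀ hκε).1 hn0
    nlinarith
  have hnpos : (0 : ℝ) ≤ n := Nat.cast_nonneg n
  set A := ⌈(1 + ε / 2) * (n : ℝ)⌉₊ with hA
  set B := ⌊(1 + ε) * (n : ℝ)⌋₊ with hB
  have hA1 : (1 + ε / 2) * (n : ℝ) ≤ A := Nat.le_ceil _
  have hA2 : (A : ℝ) < (1 + ε / 2) * n + 1 := Nat.ceil_lt_add_one (by positivity)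
  have hB1 : (B : ℝ) ≤ (1 + ε) * n := Nat.floor_le (by positivity)
  have hB2 : (1 + ε) * (n : ℝ) < B + 1 := Nat.lt_floor_add_one _
  have hAn : n ≤ A := by
    have : (n : ℝ) ≤ A := le_trans (by nlinarith) hA1
    exact_mod_cast this
  have hBn : n ≤ B + 1 := by
    have : (n : ℝ) ≤ B + 1 := le_trans (by nlinarith) hB2.le
    exact_mod_cast this
  have hN1 := (hM0 (B + 1) (by omega)).1
  have hN2 := (hM0 A (by omega)).2
  set W := {m : ℕ | (1 + ε / 2) * n ≤ m ∧ (m : ℝ) ≤ (1 + ε) * n ∧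
    ∃ j : ℤ, |(d : ℝ) ^ m * θ - j| < κ} with hW
  have hWfin : W.Finite := by
    refine (Finset.finite_toSet (Finset.range (B + 1))).subset ?_
    rintro m ⟨-, hm, -⟩
    rw [Finset.coe_range, mem_Iio, Nat.lt_succ_iff]
    exact Nat.le_floor hm
  have hcard : ((Finset.range (B + 1)).filter (fun m => ∃ j : ℤ, |(d : ℝ) ^ m * θ - j| < κ)).card
      ≤ W.ncard + ((Finset.range A).filter (fun m => ∃ j : ℤ, |(d : ℝ) ^ m * θ - j| < κ)).card := by
    rw [Set.ncard_eq_toFinset_card W hWfin]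
    refine le_trans (Finset.card_le_card ?_) (Finset.card_union_le _ _)
    intro m hm
    rw [Finset.mem_filter, Finset.mem_range] at hm
    rw [Finset.mem_union, Set.Finite.mem_toFinset, Finset.mem_filter, Finset.mem_range]
    by_cases h : m < A
    · exact Or.inr ⟨h, hm.2⟩
    · left
      refine ⟨?_, ?_, hm.2⟩
      · refine hA1.trans ?_
        exact_mod_cast not_lt.1 h
      · refine le_trans ?_ hB1
        have : m ≤ B := by omega
        exact_mod_cast this
  have hcard' : (((Finset.range (B + 1)).filter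
      (fun m => ∃ j : ℤ, |(d : ℝ) ^ m * θ - j| < κ)).card : ℝ) ≤ (W.ncard : ℝ) +
      (((Finset.range A).filter (fun m => ∃ j : ℤ, |(d : ℝ) ^ m * θ - j| < κ)).card : ℝ) := by
    exact_mod_cast hcard
  push_cast at hN1
  have h5 : (2 * κ - κ * ε / 16) * ((B : ℝ) + 1) ≤ W.ncard + (2 * κ + κ * ε / 16) * A := by
    linarith
  have h6 : 0 ≤ 2 * κ - κ * ε / 16 := by nlinarith
  have h7 : (2 * κ - κ * ε / 16) * ((1 + ε) * n) ≤ (2 * κ - κ * ε / 16) * ((B : ℝ) + 1) := by
    gcongr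
  have h8 : (2 * κ + κ * ε / 16) * (A : ℝ) ≤ (2 * κ + κ * ε / 16) * ((1 + ε / 2) * n + 1) := by
    gcongr
  have h9 : κ * ε * n * ε ≤ κ * ε * n * 1 := by gcongr
  have h10 : κ * ε ≤ κ := by nlinarith
  nlinarith

end Pool.Agent.Y686.LC2
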