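import Pool.Agent.Y298.LC.Stm

set_option autoImplicit false

/-!
# Project LC: good times of almost every angle
-/

open MeasureTheory Filter Topology Set

namespace Pool.Agent.Y686.LC2

open Pool.Agent.Y298.LC (S_ANG1 S_ANG2 S_ANG)

lemma ae_irrational : ∀ᵐ θ : ℝ, ∀ q : ℚ, θ ≠ q := by
  have h : (Set.range fun q : ℚ => (q : ℝ)).Countable := Set.countable_range _
  filter_upwards [h.ae_notMem volume] with θ hθ q hq
  exact hθ ⟨q, hq.symm⟩

lemma irr_ne {d : ℕ} (hd : 2 ≤ d) {θ : ℝ} (hθ : ∀ q : ℚ, θ ≠ q) {i j : ℕ} (hij : i < j) (n : ℤ) :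
    (d : ℝ) ^ j * θ ≠ (d : ℝ) ^ i * θ + n := by
  intro h
  have h1 : ((d : ℝ) ^ j - (d : ℝ) ^ i) * θ = n := by linarith
  have h2 : (d : ℝ) ^ i < (d : ℝ) ^ j :=
    pow_lt_pow_right₀ (by exact_mod_cast (by omega : 1 < d)) hij
  have h3 : (d : ℝ) ^ j - (d : ℝ) ^ i ≠ 0 := by linarith
  apply hθ ((n : ℚ) / ((d : ℚ) ^ j - (d : ℚ) ^ i))
  push_cast
  rw [eq_div_iff h3]
  linarith

/-- the first visits near `0` are late -/
lemma late {d : ℕ} (hd : 2 ≤ d) {θ : ℝ} (hθ : ∀ q : ℚ, θ ≠ q) (J : ℕ) :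
    ∃ r : ℝ, 0 < r ∧ ∀ l < J, ∀ j : ℤ, r ≤ |(d : ℝ) ^ l * θ - j| := by
  induction J with
  | zero => exact ⟨1, one_pos, fun l hl => absurd hl (Nat.not_lt_zero l)⟩
  | succ J ih =>
    obtain ⟨r, hr, h⟩ := ih
    have hpos : 0 < |(d : ℝ) ^ J * θ - round ((d : ℝ) ^ J * θ)| := by
      rw [abs_pos]
      intro h0
      have hdJ : ((d : ℝ) ^ J) ≠ 0 := by positivity
      apply hθ ((round ((d : ℝ) ^ J * θ) : ℚ) / (d : ℚ) ^ J)
      push_cast
      rw [eq_div_iff hdJ]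
      linarith
    refine ⟨min r |(d : ℝ) ^ J * θ - round ((d : ℝ) ^ J * θ)|, lt_min hr hpos, ?_⟩
    intro l hl j
    rcases Nat.lt_succ_iff_lt_or_eq.1 hl with h1 | rfl
    · exact (min_le_left _ _).trans (h l h1 j)
    · exact (min_le_right _ _).trans (round_le _ _)

theorem ang3 : S_ANG1 → S_ANG2 → S_ANG := by
  intro h1 h2 d hd
  filter_upwards [h1 d hd, h2 d hd, ae_irrational] with θ h1 h2 hθ
  refine ⟨fun i j hij n => irr_ne hd hθ hij n, ?_⟩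
  intro κ' ε hκ' hε hε1
  set κ := min κ' (1 / 4) with hκdef
  have hκ : 0 < κ := lt_min hκ' (by norm_num)
  have hκκ : κ ≤ κ' := min_le_left _ _
  have hκ4 : κ ≤ 1 / 4 := min_le_right _ _
  have hd1 : (1 : ℝ) < d := by exact_mod_cast (by omega : 1 < d)
  have hd0 : (0 : ℝ) < d := by linarith
  obtain ⟨J, hJ⟩ := pow_unbounded_of_one_lt (128 / (κ * ε)) hd1
  obtain ⟨r, hr, hlate⟩ := late hd hθ J
  refine ⟨min (1 / 4) (r / 2), lt_min (by norm_num) (by linarith), ?_⟩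
  intro a ha haa
  have ha4 : a ≤ 1 / 4 := haa.trans (min_le_left _ _)
  have har : a ≤ r / 2 := haa.trans (min_le_right _ _)
  obtain ⟨M0, hM0⟩ := eventually_atTop.1 (h1 a ha ha4 J)
  filter_upwards [h2 (κ * a) ε (by positivity) (by nlinarith) hε hε1,
    eventually_ge_atTop (M0 + 1)] with n hn hnM
  have hn0 : (0 : ℝ) < n := by
    have : 0 < n := by omega
    exact_mod_cast this
  set M := ⌊(1 + ε) * (n : ℝ)⌋₊ with hM
  have hM1 : (M : ℝ) ≤ (1 + ε) * n := Nat.floor_le (by positivity)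
  have hnM' : n ≤ M := by
    apply Nat.le_floor
    nlinarith
  obtain ⟨hfin, hcard⟩ := hM0 M (by omega)
  set Pr := {p : ℕ × ℕ | 1 ≤ p.1 ∧ p.1 ≤ M ∧ J ≤ p.2 ∧
      ∃ j : ℤ, |(d : ℝ) ^ p.1 * θ - θ - j| < a / (d : ℝ) ^ p.2} with hPr
  set V := {m : ℕ | (1 + ε / 2) * n ≤ m ∧ (m : ℝ) ≤ (1 + ε) * n ∧
    ∃ j : ℤ, |(d : ℝ) ^ m * θ - j| < κ * a} with hV
  have hκε : 0 < κ * ε := by positivity
  have hlt : ((fun p : ℕ × ℕ => p.1 + p.2) '' Pr).ncard < V.ncard := by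
    have e1 : ((fun p : ℕ × ℕ => p.1 + p.2) '' Pr).ncard ≤ Pr.ncard := Set.ncard_image_le hfin
    have e2 : (Pr.ncard : ℝ) < V.ncard := by
      refine lt_of_le_of_lt hcard (lt_of_lt_of_le ?_ hn)
      have hdJ : (0 : ℝ) < (d : ℝ) ^ J := by positivity
      rw [div_lt_iff₀ hdJ]
      have e3 : 128 < (d : ℝ) ^ J * (κ * ε) := (div_lt_iff₀ hκε).1 hJ
      have e4 : (M : ℝ) ≤ 2 * n := by nlinarith
      have e5 : 16 * a * (M : ℝ) ≤ 16 * a * (2 * n) := by gcongr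
      have han : 0 < a * n := by positivity
      nlinarith
    have e3 : Pr.ncard < V.ncard := by exact_mod_cast e2
    omega
  obtain ⟨m, hmV, hm⟩ := Set.exists_mem_notMem_of_ncard_lt_ncard hlt (hfin.image _)
  obtain ⟨hm1, hm2, j0, hj0⟩ := hmV
  refine ⟨m, hm1, hm2, ⟨j0, hj0.trans_le (by gcongr)⟩, ?_⟩
  intro i hi him j
  by_contra hcon
  push Not at hcon
  apply hm
  refine ⟨(i, m - i), ⟨by show 1 ≤ i; omega, ?_, ?_, j, hcon⟩, by show i + (m - i) = m; omega⟩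
  · show i ≤ M
    refine him.trans (Nat.le_floor hm2)
  · show J ≤ m - i
    by_contra hJl
    push Not at hJl
    have e1 := hlate (m - i) hJl (j0 - (d : ℤ) ^ (m - i) * j)
    have hdl : (0 : ℝ) < (d : ℝ) ^ (m - i) := by positivity
    have e2 : |(d : ℝ) ^ (m - i) * ((d : ℝ) ^ i * θ - θ - j)| < a := by
      rw [abs_mul, abs_of_pos hdl]
      rwa [lt_div_iff₀ hdl, mul_comm] at hcon
    have e3 : (d : ℝ) ^ (m - i) * (d : ℝ) ^ i = (d : ℝ) ^ m := by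
      rw [← pow_add]
      congr 1
      omega
    have e4 : (d : ℝ) ^ (m - i) * θ - ((j0 - (d : ℤ) ^ (m - i) * j : ℤ) : ℝ) =
        ((d : ℝ) ^ m * θ - j0) - (d : ℝ) ^ (m - i) * ((d : ℝ) ^ i * θ - θ - j) := by
      push_cast
      rw [← e3]
      ring
    rw [e4] at e1
    have e5 := abs_sub ((d : ℝ) ^ m * θ - j0) ((d : ℝ) ^ (m - i) * ((d : ℝ) ^ i * θ - θ - j))
    nlinarith

end Pool.Agent.Y686.LC2
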